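import Pool.Agent.N928.FG.Stm

/-!
# Abelian upper bound
-/

set_option autoImplicit false

namespace Pool.Agent.N519.FG.ABU

open Pool.Agent.N928.FG Filter Topology

lemma bern {x : ℝ} (h0 : 0 ≤ x) (k : ℕ) : 1 - x ^ k ≤ k * (1 - x) := by
  have h := one_add_mul_le_pow (a := x - 1) (by linarith) k
  have e : 1 + (x - 1) = x := by ring
  rw [e] at h
  linarith

/-- the bound for a single term -/
lemma term {R z z' θ : ℝ} {k : ℕ} (hR : 0 < R) (hz0 : 0 ≤ z) (hzz : z ≤ z') (hz' : z' < R)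
    (h0 : 0 ≤ θ) (h1 : θ ≤ 1) :
    z' ^ k - z ^ k ≤ R ^ k * ((k : ℝ) * ((R - z) / R)) ^ θ := by
  have hx0 : 0 ≤ z / R := by positivity
  have hx1 : z / R ≤ 1 := by
    rw [div_le_one hR]
    linarith
  have e1 : z' ^ k ≤ R ^ k := pow_le_pow_left₀ (by linarith) hz'.le k
  have e2 : z ^ k = R ^ k * (z / R) ^ k := by
    rw [← mul_pow, mul_div_cancel₀ _ hR.ne']
  have hy1 : 1 - (z / R) ^ k ≤ 1 := by
    have : 0 ≤ (z / R) ^ k := pow_nonneg hx0 k
    linarith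
  have hy0 : 0 ≤ 1 - (z / R) ^ k := by
    have : (z / R) ^ k ≤ 1 := pow_le_one₀ hx0 hx1
    linarith
  have hb : 1 - (z / R) ^ k ≤ (k : ℝ) * ((R - z) / R) := by
    have h := bern hx0 k
    have e : (R - z) / R = 1 - z / R := by
      rw [sub_div, div_self hR.ne']
    rw [e]
    exact h
  have e3 : 1 - (z / R) ^ k ≤ ((k : ℝ) * ((R - z) / R)) ^ θ := by
    calc 1 - (z / R) ^ k = (1 - (z / R) ^ k) ^ (1 : ℝ) := (Real.rpow_one _).symm
      _ ≤ (1 - (z / R) ^ k) ^ θ := Real.rpow_le_rpow_of_exponent_ge' hy0 hy1 h0 h1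
      _ ≤ ((k : ℝ) * ((R - z) / R)) ^ θ := Real.rpow_le_rpow hy0 hb h0
  calc z' ^ k - z ^ k ≤ R ^ k - R ^ k * (z / R) ^ k := by
        rw [← e2]
        linarith
    _ = R ^ k * (1 - (z / R) ^ k) := by ring
    _ ≤ R ^ k * ((k : ℝ) * ((R - z) / R)) ^ θ := mul_le_mul_of_nonneg_left e3 (pow_nonneg hR.le k)

theorem t_ABU : S_ABU := by
  intro q R C d hq hR hC hd hodd hev
  obtain ⟨δ, hδ0, hδ1, hδd⟩ : ∃ δ : ℝ, 0 < δ ∧ δ ≤ 1 / 4 ∧ 3 / 2 + δ ≤ d :=
    ⟨min (d - 3 / 2) (1 / 4), lt_min (by linarith) (by norm_num), min_le_right _ _, by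
      have := min_le_left (d - 3 / 2) (1 / 4)
      linarith⟩
  obtain ⟨t, ht⟩ : ∃ t : ℕ → ℝ, t = fun k => q k * R ^ k := ⟨_, rfl⟩
  have htk : ∀ k, t k = q k * R ^ k := fun k => by rw [ht]
  have ht0 : ∀ k, 0 ≤ t k := fun k => by
    rw [htk]
    exact mul_nonneg (hq k) (pow_nonneg hR.le k)
  obtain ⟨n₀, hn₀⟩ := Filter.eventually_atTop.1 hev
  have hev' : ∀ n : ℕ, n₀ ≤ n → 1 ≤ n → t (2 * n) ≤ C * (n : ℝ) ^ (-(3 / 2 + δ)) := by
    intro n h1 h2
    rw [htk]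
    refine (hn₀ n h1).trans (mul_le_mul_of_nonneg_left ?_ hC.le)
    exact Real.rpow_le_rpow_of_exponent_le (by exact_mod_cast h2) (by linarith)
  have hodd' : ∀ n : ℕ, t (2 * n + 1) ^ 2 ≤ t (2 * n) * t (2 * (n + 1)) := by
    intro n
    rw [htk, htk, htk]
    have e : q (2 * n) * R ^ (2 * n) * (q (2 * (n + 1)) * R ^ (2 * (n + 1))) =
        (q (2 * n) * q (2 * n + 2)) * (R ^ (2 * n + 1)) ^ 2 := by
      rw [show 2 * (n + 1) = 2 * n + 2 by ring]
      ring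
    rw [e, mul_pow]
    exact mul_le_mul_of_nonneg_right (hodd n) (sq_nonneg _)
  have hall : ∀ k : ℕ, 2 * n₀ + 4 ≤ k → t k ≤ C * ((k : ℝ) / 3) ^ (-(3 / 2 + δ)) := by
    intro k hk
    obtain ⟨n, hn⟩ := Nat.even_or_odd' k
    have hn1 : n₀ ≤ n := by omega
    have hn2 : 1 ≤ n := by omega
    have hk3 : k ≤ 3 * n := by omega
    have hk0 : (0 : ℝ) < (k : ℝ) / 3 := by
      have : (0 : ℝ) < k := by exact_mod_cast (by omega : 0 < k)
      positivity
    have hkn : (k : ℝ) / 3 ≤ n := by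
      have : (k : ℝ) ≤ 3 * n := by exact_mod_cast hk3
      linarith
    have hmono : (n : ℝ) ^ (-(3 / 2 + δ)) ≤ ((k : ℝ) / 3) ^ (-(3 / 2 + δ)) :=
      Real.rpow_le_rpow_of_nonpos hk0 hkn (by linarith)
    refine le_trans ?_ (mul_le_mul_of_nonneg_left hmono hC.le)
    rcases hn with hn | hn
    · rw [hn]
      exact hev' n hn1 hn2
    · rw [hn]
      have hn0 : (0 : ℝ) < n := by exact_mod_cast hn2
      have hB : 0 ≤ C * (n : ℝ) ^ (-(3 / 2 + δ)) := mul_nonneg hC.le (Real.rpow_nonneg hn0.le _)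
      have h2 : t (2 * (n + 1)) ≤ C * (n : ℝ) ^ (-(3 / 2 + δ)) := by
        refine (hev' (n + 1) (by omega) (by omega)).trans (mul_le_mul_of_nonneg_left ?_ hC.le)
        refine Real.rpow_le_rpow_of_nonpos hn0 ?_ (by linarith)
        push_cast
        linarith
      have h3 : t (2 * n + 1) ^ 2 ≤ (C * (n : ℝ) ^ (-(3 / 2 + δ))) ^ 2 := by
        refine (hodd' n).trans ?_
        rw [sq]
        exact mul_le_mul (hev' n hn1 hn2) h2 (ht0 _) hB
      exact (pow_le_pow_iff_left₀ (ht0 _) hB two_ne_zero).1 h3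
  have hO : t =O[atTop] fun k : ℕ => (k : ℝ) ^ (-(3 / 2 + δ)) := by
    refine Asymptotics.IsBigO.of_bound (C * (1 / 3 : ℝ) ^ (-(3 / 2 + δ))) ?_
    refine Filter.eventually_atTop.2 ⟨2 * n₀ + 4, fun k hk => ?_⟩
    rw [Real.norm_of_nonneg (ht0 k), Real.norm_of_nonneg (Real.rpow_nonneg (Nat.cast_nonneg k) _)]
    refine (hall k hk).trans (le_of_eq ?_)
    rw [div_eq_mul_one_div, Real.mul_rpow (Nat.cast_nonneg k) (by norm_num)]
    ring
  obtain ⟨C₁, hC₁, hbd⟩ := Asymptotics.bound_of_isBigO_nat_atTop hO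
  have hbd' : ∀ k : ℕ, 1 ≤ k → t k ≤ C₁ * (k : ℝ) ^ (-(3 / 2 + δ)) := by
    intro k hk
    have hk0 : (0 : ℝ) < k := by exact_mod_cast hk
    have hp := Real.rpow_pos_of_pos hk0 (-(3 / 2 + δ))
    have h := hbd (x := k) hp.ne'
    rwa [Real.norm_of_nonneg (ht0 k), Real.norm_of_nonneg hp.le] at h
  have hst : Summable t := by
    refine summable_of_isBigO_nat ?_ hO
    exact Real.summable_nat_rpow.2 (by linarith)
  have hsz : ∀ z, 0 ≤ z → z < R → Summable fun n => q n * z ^ n := by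
    intro z hz hzR
    refine Summable.of_nonneg_of_le (fun n => mul_nonneg (hq n) (pow_nonneg hz n)) (fun n => ?_) hst
    rw [htk]
    exact mul_le_mul_of_nonneg_left (pow_le_pow_left₀ hz hzR.le n) (hq n)
  have hM : Summable fun k : ℕ => (k : ℝ) ^ (-(1 + δ / 2)) :=
    Real.summable_nat_rpow.2 (by linarith)
  obtain ⟨M, hMdef⟩ : ∃ M : ℝ, M = ∑' k : ℕ, (k : ℝ) ^ (-(1 + δ / 2)) := ⟨_, rfl⟩
  have hM0 : 0 ≤ M := by
    rw [hMdef]
    exact tsum_nonneg fun k => Real.rpow_nonneg (Nat.cast_nonneg k) _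
  have hRθ : 0 < R ^ (1 / 2 + δ / 2) := Real.rpow_pos_of_pos hR _
  refine ⟨δ / 2, C₁ * (M + 1) / R ^ (1 / 2 + δ / 2), by linarith, by positivity, R / 2,
    by linarith, by linarith, ?_⟩
  intro z z' hz hzz hz'
  have hz0 : 0 ≤ z := by linarith
  have hRz : 0 ≤ R - z := by linarith
  rw [← (hsz z' (hz0.trans hzz) hz').tsum_sub (hsz z hz0 (by linarith))]
  have hterm : ∀ k : ℕ, q k * z' ^ k - q k * z ^ k ≤
      C₁ * ((R - z) / R) ^ (1 / 2 + δ / 2) * (k : ℝ) ^ (-(1 + δ / 2)) := by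
    intro k
    rcases Nat.eq_zero_or_pos k with rfl | hk
    · simp only [pow_zero, sub_self]
      refine mul_nonneg (mul_nonneg hC₁.le (Real.rpow_nonneg (by positivity) _))
        (Real.rpow_nonneg (Nat.cast_nonneg 0) _)
    · have hk0 : (0 : ℝ) < k := by exact_mod_cast hk
      have h := term (k := k) (θ := 1 / 2 + δ / 2) hR hz0 hzz hz' (by linarith) (by linarith)
      have hη : 0 ≤ (R - z) / R := by positivity
      calc q k * z' ^ k - q k * z ^ k = q k * (z' ^ k - z ^ k) := by ring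
        _ ≤ q k * (R ^ k * ((k : ℝ) * ((R - z) / R)) ^ (1 / 2 + δ / 2)) :=
            mul_le_mul_of_nonneg_left h (hq k)
        _ = t k * ((k : ℝ) * ((R - z) / R)) ^ (1 / 2 + δ / 2) := by
            rw [htk]
            ring
        _ ≤ C₁ * (k : ℝ) ^ (-(3 / 2 + δ)) * ((k : ℝ) * ((R - z) / R)) ^ (1 / 2 + δ / 2) :=
            mul_le_mul_of_nonneg_right (hbd' k hk) (Real.rpow_nonneg (by positivity) _)
        _ = C₁ * ((R - z) / R) ^ (1 / 2 + δ / 2) * (k : ℝ) ^ (-(1 + δ / 2)) := by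
            rw [Real.mul_rpow hk0.le hη]
            have e : (k : ℝ) ^ (-(3 / 2 + δ)) * (k : ℝ) ^ (1 / 2 + δ / 2) =
                (k : ℝ) ^ (-(1 + δ / 2)) := by
              rw [← Real.rpow_add hk0]
              congr 1
              ring
            rw [← e]
            ring
  have hsum : Summable fun k : ℕ =>
      C₁ * ((R - z) / R) ^ (1 / 2 + δ / 2) * (k : ℝ) ^ (-(1 + δ / 2)) := hM.mul_left _
  refine (Summable.tsum_le_tsum hterm ((hsz z' (hz0.trans hzz) hz').sub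
    (hsz z hz0 (by linarith))) hsum).trans ?_
  rw [tsum_mul_left, ← hMdef, Real.div_rpow hRz hR.le]
  have hp : 0 ≤ (R - z) ^ (1 / 2 + δ / 2) := Real.rpow_nonneg hRz _
  calc C₁ * ((R - z) ^ (1 / 2 + δ / 2) / R ^ (1 / 2 + δ / 2)) * M
      = C₁ * M / R ^ (1 / 2 + δ / 2) * (R - z) ^ (1 / 2 + δ / 2) := by ring
    _ ≤ C₁ * (M + 1) / R ^ (1 / 2 + δ / 2) * (R - z) ^ (1 / 2 + δ / 2) := by
        refine mul_le_mul_of_nonneg_right ?_ hp
        refine div_le_div_of_nonneg_right ?_ hRθ.le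
        exact mul_le_mul_of_nonneg_left (by linarith) hC₁.le

end Pool.Agent.N519.FG.ABU
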